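import Mathlib

set_option autoImplicit false

namespace Pool.Agent.H231Z.GenMin

open Polynomial

abbrev PM {n : ℕ} (d : Fin n → ℕ) (L : Type) : Type := Π i, Matrix (Fin (d i)) (Fin (d i)) L

section Generic

variable {I k : Type} [Fintype I] [Field k] {n : ℕ} {d : Fin n → ℕ}

/-- generic matrices -/
noncomputable def gen (w : I → PM d k) : PM d (MvPolynomial I k) :=
  fun i => ∑ g, (MvPolynomial.X g : MvPolynomial I k) • (w g i).map MvPolynomial.C

noncomputable def Phi (w : I → PM d k) : (MvPolynomial I k)[X] := ∏ i, (gen w i).charpoly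

theorem gen_map_eval (w : I → PM d k) (c : I → k) (i : Fin n) :
    (gen w i).map (MvPolynomial.eval c) = (∑ g, c g • w g) i := by
  ext a b
  simp [gen, Matrix.sum_apply, Finset.sum_apply]

theorem Phi_map_eval (w : I → PM d k) (c : I → k) :
    (Phi w).map (MvPolynomial.eval c) = ∏ i, ((∑ g, c g • w g) i).charpoly := by
  rw [Phi, Polynomial.map_prod]
  refine Finset.prod_congr rfl fun i _ => ?_
  rw [← Matrix.charpoly_map, gen_map_eval]

theorem aeval_map_mat {R S m : Type} [CommRing R] [CommRing S] [Fintype m] [DecidableEq m]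
    (f : R →+* S) (A : Matrix m m R) (p : R[X]) :
    (aeval A p).map f = aeval (A.map f) (p.map f) := by
  have := Polynomial.map_aeval_eq_aeval_map (R := R) (S := Matrix m m R) (T := S) (U := Matrix m m S)
    (φ := f) (ψ := f.mapMatrix) (by
      ext r a b
      simp [Matrix.algebraMap_matrix_apply]
      split_ifs <;> simp) p A
  exact this

theorem aeval_pi_apply' {L : Type} [CommRing L] (y : PM d L) (p : L[X]) (i : Fin n) :
    (aeval y p) i = aeval (y i) p :=
  (Polynomial.aeval_algHom_apply (Pi.evalAlgHom L (fun i => Matrix (Fin (d i)) (Fin (d i)) L) i) y p).symm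

theorem minpoly_gen [Infinite k] (w : I → PM d k) (hspan : ∀ a, ∃ c : I → k, ∑ g, c g • w g = a) :
    minpoly (FractionRing (MvPolynomial I k))
      (show PM d (FractionRing (MvPolynomial I k)) from
        fun i => (gen w i).map (algebraMap (MvPolynomial I k) (FractionRing (MvPolynomial I k)))) =
      (Phi w).map (algebraMap (MvPolynomial I k) (FractionRing (MvPolynomial I k))) := by
  classical
  set R := MvPolynomial I k
  set F := FractionRing R
  set y : PM d F := fun i => (gen w i).map (algebraMap R F) with hy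
  have hmon : (Phi w).Monic := monic_prod_of_monic _ _ fun i _ => Matrix.charpoly_monic _
  have hdeg : (Phi w).natDegree = ∑ i, d i := by
    rw [Phi, natDegree_prod_of_monic _ _ fun i _ => Matrix.charpoly_monic _]
    refine Finset.sum_congr rfl fun i _ => ?_
    rw [Matrix.charpoly_natDegree_eq_dim, Fintype.card_fin]
  have hint : IsIntegral F y := Algebra.IsIntegral.isIntegral y
  have hkill : aeval y ((Phi w).map (algebraMap R F)) = 0 := by
    funext i
    rw [aeval_pi_apply', hy, ← aeval_map_mat]
    have : aeval (gen w i) (Phi w) = 0 := by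
      obtain ⟨q, hq⟩ : (gen w i).charpoly ∣ Phi w :=
        Finset.dvd_prod_of_mem (fun i => (gen w i).charpoly) (Finset.mem_univ i)
      rw [hq, map_mul, Matrix.aeval_self_charpoly, zero_mul]
    rw [this]
    ext a b
    simp
  have hdvd : minpoly F y ∣ (Phi w).map (algebraMap R F) := minpoly.dvd F y hkill
  obtain ⟨ψ, hψ⟩ := IsIntegrallyClosed.eq_map_mul_C_of_dvd F hmon hdvd
  rw [(minpoly.monic hint).leadingCoeff, C_1, mul_one] at hψ
  have hinj : Function.Injective (algebraMap R F) := IsFractionRing.injective R F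
  have hψm : ψ.Monic := by
    have := minpoly.monic hint
    rw [← hψ] at this
    exact monic_of_injective hinj this
  have hψk : ∀ i, aeval (gen w i) ψ = 0 := by
    intro i
    have h1 : aeval y (minpoly F y) i = 0 := by rw [minpoly.aeval]; rfl
    rw [aeval_pi_apply', ← hψ, hy, ← aeval_map_mat] at h1
    refine Matrix.ext fun a b => hinj ?_
    have := congrFun (congrFun h1 a) b
    rw [Matrix.zero_apply, map_zero]
    exact this
  obtain ⟨t⟩ : Nonempty ((Σ i, Fin (d i)) ↪ k) :=
    ⟨(Fintype.equivFin _).toEmbedding.trans (Fin.valEmbedding.trans (Infinite.natEmbedding k))⟩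
  obtain ⟨c, hc⟩ := hspan (fun i => Matrix.diagonal fun j => t ⟨i, j⟩)
  have hroot : ∀ s : (Σ i, Fin (d i)), (ψ.map (MvPolynomial.eval c)).eval (t s) = 0 := by
    rintro ⟨i, j⟩
    have h1 := aeval_map_mat (MvPolynomial.eval c) (gen w i) ψ
    rw [hψk, gen_map_eval, hc] at h1
    have h2 := Polynomial.aeval_algHom_apply (Matrix.diagonalAlgHom (n := Fin (d i)) (α := k) k)
      (fun j => t ⟨i, j⟩) (ψ.map (MvPolynomial.eval c))
    have h3 : (Matrix.diagonalAlgHom (n := Fin (d i)) (α := k) k) (fun j => t ⟨i, j⟩) =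
        Matrix.diagonal fun j => t ⟨i, j⟩ := rfl
    rw [h3, ← h1] at h2
    have h4 := congrFun (congrFun h2 j) j
    have h5 := Polynomial.aeval_algHom_apply (Pi.evalAlgHom k (fun _ : Fin (d i) => k) j)
      (fun j => t ⟨i, j⟩) (ψ.map (MvPolynomial.eval c))
    have h6 : (Matrix.diagonalAlgHom (n := Fin (d i)) (α := k) k)
        (aeval (fun j => t ⟨i, j⟩) (ψ.map (MvPolynomial.eval c))) j j =
        (aeval (fun j => t ⟨i, j⟩) (ψ.map (MvPolynomial.eval c))) j := by
      simp [Matrix.diagonalAlgHom]
    rw [h6] at h4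
    rw [← coe_aeval_eq_eval]
    refine h5.trans (h4.symm.trans ?_)
    simp
  have hle : ∑ i, d i ≤ ψ.natDegree := by
    by_contra hlt
    push Not at hlt
    have hm := hψm.map (MvPolynomial.eval c)
    apply hm.ne_zero
    apply Polynomial.eq_zero_of_natDegree_lt_card_of_eval_eq_zero _ t.injective hroot
    rw [hψm.natDegree_map]
    simpa using hlt
  symm
  apply eq_of_monic_of_dvd_of_natDegree_le (minpoly.monic hint) (hmon.map _) hdvd
  rw [hmon.natDegree_map, hdeg, ← hψ, hψm.natDegree_map]
  exact hle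

end Generic

theorem indep_base {H k L : Type} [Fintype H] [Field k] [Field L] [Algebra k L] {n : ℕ} {d : Fin n → ℕ}
    (w : H → PM d k) (hw : ∀ c : H → k, ∑ h, c h • w h = 0 → ∀ h, c h = 0) (c : H → L)
    (hc : ∑ h, c h • (show PM d L from fun i => (w h i).map (algebraMap k L)) = 0) : ∀ h, c h = 0 := by
  intro h
  rw [← Module.forall_dual_apply_eq_zero_iff k]
  intro μ
  refine hw (fun h => μ (c h)) ?_ h
  funext i
  ext a b
  have h1 := congrFun (congrFun (congrFun hc i) a) b
  simp only [Finset.sum_apply, Matrix.sum_apply, Pi.smul_apply, Matrix.smul_apply, Matrix.map_apply,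
    smul_eq_mul, Pi.zero_apply, Matrix.zero_apply] at h1 ⊢
  have h2 := congrArg μ h1
  rw [map_sum, map_zero] at h2
  rw [← h2]
  refine Finset.sum_congr rfl fun g _ => ?_
  rw [mul_comm (c g), ← Algebra.smul_def, map_smul, smul_eq_mul, mul_comm]

/-- transfer of the minimal polynomial along a faithful base change -/
theorem minpoly_transfer {H F L B : Type} [Group H] [Fintype H] [Field F] [Field L] [Algebra F L]
    [Ring B] [Algebra L B] [Algebra F B] [IsScalarTower F L B] [Module.Finite L B] (w : H →* B)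
    (hw : ∀ c : H → L, ∑ h, c h • w h = 0 → ∀ h, c h = 0) (x : MonoidAlgebra F H) :
    minpoly L (MonoidAlgebra.lift F B H w x) = (minpoly F x).map (algebraMap F L) := by
  classical
  set Θ := MonoidAlgebra.lift F B H w with hΘ
  have hx : IsIntegral F x := Algebra.IsIntegral.isIntegral x
  have hy : IsIntegral L (Θ x) := Algebra.IsIntegral.isIntegral _
  have hkill : aeval (Θ x) ((minpoly F x).map (algebraMap F L)) = 0 := by
    rw [aeval_map_algebraMap, Polynomial.aeval_algHom_apply, minpoly.aeval, map_zero]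
  symm
  apply eq_of_monic_of_dvd_of_natDegree_le (minpoly.monic hy) ((minpoly.monic hx).map _)
    (minpoly.dvd L _ hkill)
  rw [(minpoly.monic hx).natDegree_map]
  set P := minpoly L (Θ x) with hP
  obtain ⟨μ, hμ⟩ : ∃ μ : L →ₗ[F] F, μ 1 = 1 := by
    obtain ⟨ν, hν⟩ := (Module.forall_dual_apply_eq_zero_iff F (1 : L)).not.2 one_ne_zero |> not_forall.1
    exact ⟨(ν 1)⁻¹ • ν, by simp [inv_mul_cancel₀ hν]⟩
  have hΘs : ∀ z : MonoidAlgebra F H, Θ z = ∑ h, algebraMap F L (z.coeff h) • w h := by
    intro z
    rw [hΘ, MonoidAlgebra.lift_apply, Finsupp.sum_fintype _ _ (by simp)]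
    refine Finset.sum_congr rfl fun h _ => ?_
    rw [algebraMap_smul]
  have h1 : ∑ j ∈ Finset.range (P.natDegree + 1), P.coeff j • (Θ x) ^ j = 0 := by
    rw [← aeval_eq_sum_range, hP, minpoly.aeval]
  have h2 : ∀ h, ∑ j ∈ Finset.range (P.natDegree + 1), P.coeff j * algebraMap F L ((x ^ j).coeff h) = 0 := by
    apply hw
    rw [← h1]
    simp only [Finset.sum_smul]
    rw [Finset.sum_comm]
    refine Finset.sum_congr rfl fun j _ => ?_
    rw [← map_pow, hΘs, Finset.smul_sum]
    refine Finset.sum_congr rfl fun h _ => ?_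
    rw [mul_smul]
  let Q : F[X] := ∑ j ∈ Finset.range (P.natDegree + 1), monomial j (μ (P.coeff j))
  have hQc : ∀ j, Q.coeff j = if j < P.natDegree + 1 then μ (P.coeff j) else 0 := by
    intro j
    simp only [Q, finsetSum_coeff, coeff_monomial]
    rw [Finset.sum_ite_eq']
    simp
  have hQ0 : Q ≠ 0 := by
    intro h
    have := hQc P.natDegree
    rw [h, if_pos (Nat.lt_succ_self _), (minpoly.monic hy).coeff_natDegree, hμ] at this
    simp at this
  have hQd : Q.natDegree ≤ P.natDegree := by
    rw [natDegree_le_iff_coeff_eq_zero]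
    intro j hj
    rw [hQc, if_neg (by omega)]
  have hQk : aeval x Q = 0 := by
    simp only [Q, map_sum, aeval_monomial, ← Algebra.smul_def]
    ext h
    have h3 := congrArg μ (h2 h)
    rw [map_sum, map_zero] at h3
    simp only [MonoidAlgebra.coeff_sum, MonoidAlgebra.coeff_smul, Finsupp.coe_finsetSum, Finset.sum_apply,
      Finsupp.smul_apply, smul_eq_mul, MonoidAlgebra.coeff_zero, Finsupp.coe_zero, Pi.zero_apply]
    rw [← h3]
    refine Finset.sum_congr rfl fun j _ => ?_
    rw [mul_comm (P.coeff j), ← Algebra.smul_def, map_smul, smul_eq_mul, mul_comm]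
  exact (natDegree_le_natDegree (minpoly.degree_le_of_ne_zero F x hQ0 hQk)).trans hQd

end Pool.Agent.H231Z.GenMin
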