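import Mathlib

set_option autoImplicit false

namespace Pool.Agent.H231Z.NS

open Cardinal Set

variable {K : Type} [LinearOrder K]

/-- Nonstationarity in the pressing-down form: an eventually regressive map tending to infinity along `T`. -/
def NSt (T : Set K) : Prop :=
  ∃ f : K → K, ∀ δ, ∃ b, ∀ α ∈ T, b ≤ α → δ < f α ∧ f α < α

theorem NSt.mono {S T : Set K} (h : NSt T) (hs : S ⊆ T) : NSt S := by
  obtain ⟨f, hf⟩ := h
  refine ⟨f, fun δ => ?_⟩
  obtain ⟨b, hb⟩ := hf δ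
  exact ⟨b, fun α hα => hb α (hs hα)⟩

theorem nst_empty : NSt (∅ : Set K) := ⟨id, fun δ => ⟨δ, fun _ h => absurd h (notMem_empty _)⟩⟩

theorem nst_iUnion (hB : ∀ g : ℕ → K, ∃ b, ∀ n, g n < b) {T : ℕ → Set K} (h : ∀ n, NSt (T n)) :
    NSt (⋃ n, T n) := by
  classical
  choose f hf using h
  choose b hb using hf
  refine ⟨fun α => if hα : ∃ n, α ∈ T n then f hα.choose α else α, fun δ => ?_⟩
  obtain ⟨c, hc⟩ := hB (fun n => b n δ)
  refine ⟨c, fun α hα hcα => ?_⟩
  have hα' : ∃ n, α ∈ T n := mem_iUnion.1 hα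
  simp only [dif_pos hα']
  exact hb _ δ α hα'.choose_spec ((hc _).le.trans hcα)

theorem nst_union (hB : ∀ g : ℕ → K, ∃ b, ∀ n, g n < b) {S T : Set K} (hS : NSt S) (hT : NSt T) :
    NSt (S ∪ T) := by
  have := nst_iUnion hB (T := fun n => if n = 0 then S else T) (fun n => by
    by_cases h : n = 0 <;> simp [h, hS, hT])
  refine this.mono ?_
  rintro x (hx | hx)
  · exact mem_iUnion.2 ⟨0, by simpa using hx⟩
  · exact mem_iUnion.2 ⟨1, by simpa using hx⟩

theorem nst_of_inter_Ioi (hB : ∀ g : ℕ → K, ∃ b, ∀ n, g n < b) {T : Set K} {η : K}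
    (h : NSt (T ∩ Ioi η)) : NSt T := by
  obtain ⟨f, hf⟩ := h
  refine ⟨f, fun δ => ?_⟩
  obtain ⟨b, hb⟩ := hf δ
  obtain ⟨c, hc⟩ := hB (fun _ => max b η)
  refine ⟨c, fun α hα hcα => hb α ⟨hα, ?_⟩ ?_⟩
  · exact ((le_max_right _ _).trans_lt (hc 0)).trans_le hcα
  · exact ((le_max_left _ _).trans (hc 0).le).trans hcα

/-- normality -/
theorem nst_of_fibers (hA : ∀ (a : K) (g : K → K), ∃ b, ∀ x ≤ a, g x < b) {T : Set K} {g : K → K}
    (hg : ∀ α ∈ T, g α < α) (h : ∀ γ, NSt (T ∩ g ⁻¹' {γ})) : NSt T := by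
  classical
  choose f hf using h
  choose b hb using hf
  refine ⟨fun α => if f (g α) α < α then max (g α) (f (g α) α) else g α, fun δ => ?_⟩
  obtain ⟨c, hc⟩ := hA δ (fun γ => b γ δ)
  refine ⟨c, fun α hα hcα => ?_⟩
  constructor
  · by_cases h1 : g α ≤ δ
    · obtain ⟨h2, h3⟩ := hb (g α) δ α ⟨hα, rfl⟩ ((hc _ h1).le.trans hcα)
      simp only [if_pos h3]
      exact h2.trans_le (le_max_right _ _)
    · push Not at h1
      by_cases h3 : f (g α) α < α
      · simp only [if_pos h3]; exact h1.trans_le (le_max_left _ _)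
      · simp only [if_neg h3]; exact h1
  · by_cases h3 : f (g α) α < α
    · simp only [if_pos h3]; exact max_lt (hg α hα) h3
    · simp only [if_neg h3]; exact hg α hα

/-- a set with an injective regressive map is nonstationary -/
theorem nst_of_inj (hA : ∀ (a : K) (g : K → K), ∃ b, ∀ x ≤ a, g x < b) {T : Set K} {g : K → K}
    (hg : ∀ α ∈ T, g α < α) (hinj : InjOn g T) : NSt T := by
  classical
  refine ⟨g, fun δ => ?_⟩
  obtain ⟨c, hc⟩ := hA δ (fun γ => if h : ∃ α ∈ T, g α = γ then h.choose else γ)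
  refine ⟨c, fun α hα hcα => ⟨?_, hg α hα⟩⟩
  by_contra hle
  push Not at hle
  have h1 := hc (g α) hle
  have h2 : ∃ β ∈ T, g β = g α := ⟨α, hα, rfl⟩
  simp only [dif_pos h2] at h1
  have h3 : h2.choose = α := hinj h2.choose_spec.1 hα h2.choose_spec.2
  rw [h3] at h1
  exact absurd h1 (not_lt.2 hcα)

/-- points of countable cofinality -/
def E (K : Type) [LinearOrder K] : Set K :=
  {α | ∃ a : ℕ → K, (∀ n, a n < α) ∧ ∀ β < α, ∃ n, β ≤ a n}

theorem not_nst_E [WellFoundedLT K] [Nonempty K] (hB : ∀ g : ℕ → K, ∃ b, ∀ n, g n < b) :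
    ¬ NSt (E K) := by
  rintro ⟨f, hf⟩
  choose b hb using hf
  obtain ⟨k0⟩ := ‹Nonempty K›
  let a : ℕ → K := fun n => Nat.rec k0 (fun _ x => max x (b x)) n
  have ha : ∀ n, b (a n) ≤ a (n + 1) := fun n => le_max_right _ _
  have hne : {β | ∀ n, a n < β}.Nonempty := hB a
  let α := wellFounded_lt.min _ hne
  have hα : ∀ n, a n < α := wellFounded_lt.min_mem _ hne
  have hα2 : ∀ β < α, ∃ n, β ≤ a n := by
    intro β hβ
    by_contra hc
    push Not at hc
    exact wellFounded_lt.not_lt_min {β | ∀ n, a n < β} hc hβ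
  have hE : α ∈ E K := ⟨a, hα, hα2⟩
  have h1 := fun n => hb (a n) α hE ((ha n).trans (hα (n + 1)).le)
  obtain ⟨n, hn⟩ := hα2 (f α) (h1 0).2
  exact absurd (h1 n).1 (not_lt.2 hn)

/-- Splitting: a map with unboundedly many stationary fibres. -/
theorem exists_split [WellFoundedLT K] [Nonempty K]
    (hA : ∀ (a : K) (g : K → K), ∃ b, ∀ x ≤ a, g x < b) (hB : ∀ g : ℕ → K, ∃ b, ∀ n, g n < b) :
    ∃ g : K → K, ∀ η, ∃ γ, η ≤ γ ∧ ¬ NSt (g ⁻¹' {γ}) := by
  classical
  have : ∀ α : K, ∃ a : ℕ → K, α ∈ E K → (∀ n, a n < α) ∧ ∀ β < α, ∃ n, β ≤ a n := by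
    intro α
    by_cases h : α ∈ E K
    · obtain ⟨a, ha⟩ := h
      exact ⟨a, fun _ => ha⟩
    · exact ⟨fun _ => α, fun h' => absurd h' h⟩
  choose a ha using this
  have key : ∃ n, ∀ η, ¬ NSt {α | α ∈ E K ∧ η ≤ a α n} := by
    by_contra hc
    push Not at hc
    choose η hη using hc
    obtain ⟨c, hc⟩ := hB η
    apply not_nst_E hB
    apply nst_of_inter_Ioi hB (η := c)
    refine (nst_iUnion hB hη).mono ?_
    rintro α ⟨h1, h2⟩
    obtain ⟨n, hn⟩ := (ha α h1).2 c h2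
    exact mem_iUnion.2 ⟨n, h1, (hc n).le.trans hn⟩
  obtain ⟨n, hn⟩ := key
  refine ⟨fun α => a α n, fun η => ?_⟩
  by_contra hc
  push Not at hc
  apply hn η
  apply nst_of_fibers hA (g := fun α => a α n)
  · intro α hα
    exact (ha α hα.1).1 n
  · intro γ
    by_cases h : η ≤ γ
    · exact (hc γ h).mono inter_subset_right
    · refine nst_empty.mono ?_
      rintro α ⟨⟨-, h1⟩, h2⟩
      exact h (h1.trans_eq h2)

/-- The well-ordered index set of order type the cofinality of the continuum. -/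
theorem exists_K : ∃ (K : Type) (_ : LinearOrder K) (_ : WellFoundedLT K), Nonempty K ∧
    (∀ s : Set K, #s < #K → ∃ b, ∀ x ∈ s, x < b) ∧ (∀ a : K, #(Iic a) < #K) ∧ ℵ₀ < #K ∧
    #K ≤ 𝔠 ∧ 𝔠 < 2 ^ #K := by
  set κ : Cardinal.{0} := (𝔠 : Cardinal.{0}).ord.cof with hκ
  have h0 : ℵ₀ < κ := by
    have := lt_cof_ord_power (a := ℵ₀) (b := 2) le_rfl (by norm_num)
    rwa [two_power_aleph0] at this
  have hreg : κ.ord.cof = κ := Ordinal.cof_ord_cof _
  have hmk : #κ.ord.ToType = κ := mk_ord_toType κ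
  refine ⟨κ.ord.ToType, inferInstance, inferInstance, ?_, ?_, ?_, ?_, ?_, ?_⟩
  · rw [← Cardinal.mk_ne_zero_iff, hmk]
    exact (aleph0_pos.trans h0).ne'
  · intro s hs
    rw [← not_isCofinal_iff]
    intro hc
    have := Order.cof_le hc
    rw [Ordinal.cof_toType, hreg] at this
    rw [hmk] at hs
    exact absurd hs (not_lt.2 this)
  · intro a
    apply mk_Iic_lt a (by simp)
    rw [hmk]; exact h0.le
  · rwa [hmk]
  · rw [hmk]; exact Ordinal.cof_ord_le _
  · rw [hmk]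
    have h1 := lt_power_cof_ord (c := (𝔠 : Cardinal.{0})) aleph0_le_continuum
    rw [← hκ] at h1
    have h2 : (𝔠 : Cardinal.{0}) ^ κ = 2 ^ κ := by
      rw [← two_power_aleph0, ← power_mul, mul_eq_right h0.le h0.le aleph0_ne_zero]
    rwa [h2] at h1

theorem borel_card : #{t : Set ℝ | MeasurableSet t} ≤ 𝔠 := by
  have h := MeasurableSpace.cardinal_measurableSet_le_continuum (α := ℝ) (s := range Iic)
    (mk_range_le.trans mk_real.le)
  rw [← borel_eq_generateFrom_Iic ℝ] at h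
  have : (Real.measurableSpace : MeasurableSpace ℝ) = borel ℝ := BorelSpace.measurable_eq
  rw [← this] at h
  exact h

end Pool.Agent.H231Z.NS
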