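import Pool.Agent.H231Z.GenMin

set_option autoImplicit false

namespace Pool.Agent.H231Z.GenMin

open Polynomial

/-- abstract norm and trace data on an algebra -/
structure NT (k B : Type) [Field k] [Ring B] [Algebra k B] where
  N : B →* k
  τ : B →ₗ[k] k
  unit : ∀ a, N a ≠ 0 → IsUnit a
  poly : ∀ c, ∃ P : k[X], P.coeff 0 = 1 ∧ P.coeff 1 = τ c ∧ ∀ t : k, P.eval t = N (1 + t • c)
  nondeg : ∀ z, (∀ y, τ (z * y) = 0) → z = 0

section Pres

variable {k B B' : Type} [Field k] [Infinite k] [Ring B] [Algebra k B] [Ring B'] [Algebra k B']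

theorem NT.ne_zero (D : NT k B) (u : Bˣ) : D.N u ≠ 0 := (u.isUnit.map D.N).ne_zero

theorem NT.exists_scalar (D : NT k B) (a : Bˣ) (c : B) : ∃ s : k, s ≠ 0 ∧ IsUnit ((a : B) + s • c) := by
  obtain ⟨P, h0, -, hP⟩ := D.poly ((a⁻¹ : Bˣ) * c)
  by_contra hc
  push Not at hc
  have h1 : X * P = 0 := by
    apply Polynomial.funext
    intro s
    rw [eval_mul, eval_X, eval_zero]
    by_cases hs : s = 0
    · rw [hs, zero_mul]
    · have h2 : D.N ((a : B) + s • c) = 0 := by
        by_contra h; exact hc s hs (D.unit _ h)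
      have h3 : (a : B) + s • c = a * (1 + s • (((a⁻¹ : Bˣ) : B) * c)) := by
        rw [mul_add, mul_one, mul_smul_comm, Units.mul_inv_cancel_left]
      rw [h3, map_mul, ← hP] at h2
      rw [(mul_eq_zero.1 h2).resolve_left (D.ne_zero a), mul_zero]
  rcases mul_eq_zero.1 h1 with h | h
  · exact X_ne_zero h
  · rw [h] at h0; simp at h0

theorem trace_inv (D : NT k B) (D' : NT k B') (T : B →ₗ[k] B') (hT : ∀ a, D'.N (T a) = D.N a)
    (u : Bˣ) (u' : B'ˣ) (hu : T u = u') (b : B) :
    D'.τ ((u'⁻¹ : B'ˣ) * T b) = D.τ ((u⁻¹ : Bˣ) * b) := by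
  obtain ⟨P, -, h1, hP⟩ := D.poly ((u⁻¹ : Bˣ) * b)
  obtain ⟨P', -, h1', hP'⟩ := D'.poly ((u'⁻¹ : B'ˣ) * T b)
  have : P' = P := by
    apply Polynomial.funext
    intro s
    have h3 : (u : B) + s • b = u * (1 + s • (((u⁻¹ : Bˣ) : B) * b)) := by
      rw [mul_add, mul_one, mul_smul_comm, Units.mul_inv_cancel_left]
    have h4 : (u' : B') + s • T b = u' * (1 + s • (((u'⁻¹ : B'ˣ) : B') * T b)) := by
      rw [mul_add, mul_one, mul_smul_comm, Units.mul_inv_cancel_left]
    have h5 := hT ((u : B) + s • b)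
    rw [map_add, map_smul, hu, h4, h3, map_mul, map_mul, ← hP, ← hP', ← hu, hT] at h5
    exact mul_left_cancel₀ (D.ne_zero u) h5
  rw [← h1, ← h1', this]

theorem hua_aux {B : Type} [Ring B] (a c e : Bˣ) (he : (e : B) = a - c) :
    ((a : B) - a * (c⁻¹ : Bˣ) * a) * (((a⁻¹ : Bˣ) : B) - (e⁻¹ : Bˣ)) = 1 ∧
      (((a⁻¹ : Bˣ) : B) - (e⁻¹ : Bˣ)) * ((a : B) - a * (c⁻¹ : Bˣ) * a) = 1 := by
  have h1 : ((a⁻¹ : Bˣ) : B) - (e⁻¹ : Bˣ) = -((a⁻¹ * c * e⁻¹ : Bˣ) : B) := by
    have : (c : B) = a - e := by rw [he]; abel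
    simp only [Units.val_mul]
    rw [this, mul_sub, sub_mul, Units.inv_mul, one_mul, Units.mul_inv_cancel_right]
    abel
  have h2 : (a : B) - a * (c⁻¹ : Bˣ) * a = -((e * c⁻¹ * a : Bˣ) : B) := by
    simp only [Units.val_mul]
    rw [he, sub_mul, sub_mul, Units.mul_inv, one_mul]
    abel
  rw [h1, h2, neg_mul_neg, neg_mul_neg, ← Units.val_mul, ← Units.val_mul]
  constructor
  · rw [show e * c⁻¹ * a * (a⁻¹ * c * e⁻¹) = 1 by group]; rfl
  · rw [show a⁻¹ * c * e⁻¹ * (e * c⁻¹ * a) = 1 by group]; rfl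

theorem hua (D : NT k B) (D' : NT k B') (T : B →ₗ[k] B') (hT : ∀ a, D'.N (T a) = D.N a)
    (hs : Function.Surjective T) (a c : Bˣ) (a' c' : B'ˣ) (ha : T a = a') (hc : T c = c') :
    T (a * (c⁻¹ : Bˣ) * a) = a' * (c'⁻¹ : B'ˣ) * a' := by
  have hun : ∀ u : Bˣ, ∃ u' : B'ˣ, T u = u' := by
    intro u
    obtain ⟨u', hu'⟩ := D'.unit (T u) (by rw [hT]; exact D.ne_zero u)
    exact ⟨u', hu'.symm⟩
  have key : ∀ (c e : Bˣ) (c' : B'ˣ), T c = c' → (e : B) = a - c →
      T (a * (c⁻¹ : Bˣ) * a) = a' * (c'⁻¹ : B'ˣ) * a' := by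
    intro c e c' hc he
    obtain ⟨e', he'⟩ := hun e
    have he'' : (e' : B') = a' - c' := by rw [← he', he, map_sub, ha, hc]
    obtain ⟨h1, h2⟩ := hua_aux a c e he
    obtain ⟨h1', h2'⟩ := hua_aux a' c' e' he''
    let w : Bˣ := ⟨_, _, h1, h2⟩
    obtain ⟨w', hw'⟩ := hun w
    have h3 : ((w'⁻¹ : B'ˣ) : B') - (((a'⁻¹ : B'ˣ) : B') - (e'⁻¹ : B'ˣ)) = 0 := by
      apply D'.nondeg
      intro y
      obtain ⟨b, rfl⟩ := hs y
      rw [sub_mul, sub_mul, map_sub, map_sub, trace_inv D D' T hT w w' hw', trace_inv D D' T hT a a' ha,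
        trace_inv D D' T hT e e' he', ← map_sub, ← sub_mul]
      exact sub_self _
    have h4 : (w' : B') = (a' : B') - a' * (c'⁻¹ : B'ˣ) * a' := by
      rw [← sub_eq_zero.1 h3] at h1'
      have := congrArg (· * (w' : B')) h1'
      simp only [Units.inv_mul_cancel_right, one_mul] at this
      exact this.symm
    have h5 : T w = T a - T (a * (c⁻¹ : Bˣ) * a) := map_sub T _ _
    rw [hw', h4, ha] at h5
    exact (sub_right_inj.1 h5).symm
  obtain ⟨s, hs0, e, he⟩ := D.exists_scalar a (-(c : B))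
  let c1 : Bˣ := (Units.map (algebraMap k B).toMonoidHom (Units.mk0 s hs0)) * c
  let c1' : B'ˣ := (Units.map (algebraMap k B').toMonoidHom (Units.mk0 s hs0)) * c'
  have e1 : (c1 : B) = s • (c : B) := by simp [c1, Algebra.smul_def]
  have e1' : (c1' : B') = s • (c' : B') := by simp [c1', Algebra.smul_def]
  have e2 : ((c1⁻¹ : Bˣ) : B) = s⁻¹ • ((c⁻¹ : Bˣ) : B) := by
    apply Units.inv_eq_of_mul_eq_one_right
    rw [e1, smul_mul_smul_comm, mul_inv_cancel₀ hs0, Units.mul_inv, one_smul]
  have e2' : ((c1'⁻¹ : B'ˣ) : B') = s⁻¹ • ((c'⁻¹ : B'ˣ) : B') := by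
    apply Units.inv_eq_of_mul_eq_one_right
    rw [e1', smul_mul_smul_comm, mul_inv_cancel₀ hs0, Units.mul_inv, one_smul]
  have := key c1 e c1' (by rw [e1, e1', map_smul, hc]) (by rw [he, e1, smul_neg, sub_eq_add_neg])
  rw [e2, e2', mul_smul_comm, smul_mul_assoc, map_smul, mul_smul_comm, smul_mul_assoc] at this
  exact smul_right_injective _ (inv_ne_zero hs0) this

end Pres

/-- norm and trace on a product of matrix algebras, pulled back along an isomorphism -/
theorem exists_NT {k B : Type} [Field k] [Ring B] [Algebra k B] {n : ℕ} {d : Fin n → ℕ}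
    (W : B ≃ₐ[k] PM d k) : ∃ D : NT k B, ∀ a, D.N a = ∏ i, (W a i).det := by
  classical
  refine ⟨⟨⟨⟨fun a => ∏ i, (W a i).det, by simp⟩, fun a b => by
      simp [Matrix.det_mul, Finset.prod_mul_distrib]⟩,
    (∑ i, (Matrix.traceLinearMap (Fin (d i)) k k).comp (LinearMap.proj i)).comp W.toLinearMap,
    ?_, ?_, ?_⟩, fun a => rfl⟩
  · intro a ha
    have h1 : IsUnit (W a) := by
      rw [Pi.isUnit_iff]
      intro i
      rw [Matrix.isUnit_iff_isUnit_det, isUnit_iff_ne_zero]
      exact Finset.prod_ne_zero_iff.1 ha i (Finset.mem_univ i)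
    have := h1.map W.symm
    rwa [AlgEquiv.symm_apply_apply] at this
  · intro c
    have h0 : ∀ i, (-(W c i)).charpolyRev.coeff 0 = 1 := fun i => by
      rw [coeff_zero_eq_eval_zero, Matrix.eval_charpolyRev]
    have hind : ∀ s : Finset (Fin n), (∏ i ∈ s, (-(W c i)).charpolyRev).coeff 0 = 1 ∧
        (∏ i ∈ s, (-(W c i)).charpolyRev).coeff 1 = ∑ i ∈ s, (W c i).trace := by
      intro s
      induction s using Finset.induction_on with
      | empty => simp [coeff_one]
      | insert i s hi ih =>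
        rw [Finset.prod_insert hi, Finset.sum_insert hi, mul_coeff_zero, mul_coeff_one, h0, ih.1, ih.2,
          Matrix.coeff_charpolyRev_eq_neg_trace]
        simp [add_comm]
    refine ⟨∏ i, (-(W c i)).charpolyRev, (hind _).1, ?_, ?_⟩
    · rw [(hind _).2]; simp
    · intro t
      rw [eval_prod]
      refine Finset.prod_congr rfl fun i _ => ?_
      rw [Matrix.charpolyRev, ← coe_evalRingHom, RingHom.map_det]
      congr 1
      ext a b
      simp [Matrix.one_apply]
      split_ifs <;> simp [mul_comm]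
  · intro z hz
    apply W.injective
    rw [map_zero]
    funext i
    rw [Matrix.ext_iff_trace_mul_right]
    intro M
    have := hz (W.symm (Pi.single i M))
    simp only [LinearMap.comp_apply, AlgEquiv.toLinearMap_apply, map_mul, AlgEquiv.apply_symm_apply,
      LinearMap.sum_apply, LinearMap.proj_apply, Matrix.traceLinearMap_apply, Pi.mul_apply] at this
    rw [Finset.sum_eq_single i] at this
    · simpa using this
    · intro j _ hj
      simp [Pi.single_eq_of_ne hj]
    · simp

/-- half-isomorphisms of groups are isomorphisms or anti-isomorphisms -/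
theorem half_iso {G H : Type} [Group G] [Group H] (π : G ≃ H) (h1 : π 1 = 1)
    (h3 : ∀ g h, π (g * h * g) = π g * π h * π g)
    (h4 : ∀ x y z, (π (x * y * z) = π x * π y * π z ∧ π (z * y * x) = π z * π y * π x) ∨
      (π (x * y * z) = π z * π y * π x ∧ π (z * y * x) = π x * π y * π z) ∨
      (x * y * z = z * y * x ∧ π x * π y * π z = π z * π y * π x))
    (hsq : ∀ g h : G, g * h = h * g → ∃ a, g = a * a ∧ a * h = h * a) : Nonempty (G ≃* H) := by
  have h2 : ∀ x z, (π (x * z) = π x * π z ∧ π (z * x) = π z * π x) ∨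
      (π (x * z) = π z * π x ∧ π (z * x) = π x * π z) ∨ (x * z = z * x ∧ π x * π z = π z * π x) := by
    intro x z
    simpa only [mul_one, h1] using h4 x 1 z
  have hc : ∀ x z, x * z = z * x → π x * π z = π z * π x := by
    intro x z h
    rcases h2 x z with ⟨a, b⟩ | ⟨a, b⟩ | ⟨-, b⟩
    · rw [← a, ← b, h]
    · rw [← a, ← b, h]
    · exact b
  have hc2 : ∀ x z, x * z = z * x → π (x * z) = π x * π z := by
    intro x z h
    obtain ⟨a, rfl, ha⟩ := hsq x z h
    have e1 : a * a * z = a * z * a := by rw [mul_assoc a a z, mul_assoc a z a, ha]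
    have e2 := h3 a 1
    rw [mul_one, h1, mul_one] at e2
    rw [e1, h3, e2, mul_assoc, ← hc a z ha, mul_assoc]
  have h5 : ∀ x z, (π (x * z) = π x * π z ∧ π (z * x) = π z * π x) ∨
      (π (x * z) = π z * π x ∧ π (z * x) = π x * π z) := by
    intro x z
    rcases h2 x z with h | h | ⟨a, -⟩
    · exact Or.inl h
    · exact Or.inr h
    · exact Or.inl ⟨hc2 x z a, hc2 z x a.symm⟩
  have hc3 : ∀ x z, π x * π z = π z * π x → x * z = z * x := by
    intro x z h
    apply π.injective
    rcases h5 x z with ⟨a, b⟩ | ⟨a, b⟩ <;> rw [a, b, h]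
  let P : G → G → Prop := fun a b => π (a * b) = π a * π b ∧ π (b * a) = π b * π a ∧ a * b ≠ b * a
  let M : G → G → Prop := fun a b => π (a * b) = π b * π a ∧ π (b * a) = π a * π b ∧ a * b ≠ b * a
  have hPs : ∀ a b, P a b → P b a := fun a b h => ⟨h.2.1, h.1, h.2.2.symm⟩
  have hMs : ∀ a b, M a b → M b a := fun a b h => ⟨h.2.1, h.1, h.2.2.symm⟩
  have hPM : ∀ a b, a * b ≠ b * a → P a b ∨ M a b := by
    intro a b h
    rcases h5 a b with ⟨x, y⟩ | ⟨x, y⟩
    · exact Or.inl ⟨x, y, h⟩
    · exact Or.inr ⟨x, y, h⟩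
  have e1 : ∀ a b c, P a b → M a c → b * a * c = c * a * b := by
    intro a b c hP hM
    have n1 : π a * π b ≠ π b * π a := fun h => hP.2.2 (hc3 _ _ h)
    have n2 : π a * π c ≠ π c * π a := fun h => hM.2.2 (hc3 _ _ h)
    rcases h4 b a c with ⟨x, y⟩ | ⟨x, y⟩ | ⟨x, -⟩
    · apply π.injective
      rcases h5 b (a * c) with ⟨u, -⟩ | ⟨u, -⟩
      · rw [← mul_assoc, x, hM.1, mul_assoc] at u
        exact absurd (mul_left_cancel u) n2
      · rw [← mul_assoc, hM.1] at u
        rw [u, y]
    · apply π.injective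
      rcases h5 (b * a) c with ⟨u, -⟩ | ⟨u, -⟩
      · rw [hP.2.1] at u
        rw [u, y]
      · rw [x, hP.2.1, mul_assoc] at u
        exact absurd (mul_left_cancel u) n1
    · exact x
  have e2 : ∀ a b, P a b → P a (b * a) := by
    intro a b hP
    have n : a * (b * a) ≠ b * a * a := by
      intro h
      rw [← mul_assoc] at h
      exact hP.2.2 (mul_right_cancel h)
    have u : π (a * (b * a)) = π a * π (b * a) := by rw [← mul_assoc, h3, hP.2.1, mul_assoc]
    rcases hPM _ _ n with h | h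
    · exact h
    · exact absurd (hc3 _ _ (u.symm.trans h.1)) n
  have e3 : ∀ a b c, P a b → M a c → False := by
    intro a b c hP hM
    have u := e1 a b c hP hM
    have v := e1 a (b * a) c (e2 a b hP) hM
    apply hM.2.2
    have w : b * a * (a * c) = b * a * (c * a) := by
      calc b * a * (a * c) = b * a * a * c := by group
        _ = c * a * (b * a) := v
        _ = c * a * b * a := by group
        _ = b * a * c * a := by rw [u]
        _ = b * a * (c * a) := by group
    exact mul_left_cancel w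
  by_cases hall : ∀ c d, ¬ M c d
  · refine ⟨MulEquiv.mk' π fun a b => ?_⟩
    by_cases h : a * b = b * a
    · exact hc2 a b h
    · exact ((hPM a b h).resolve_right (hall a b)).1
  · push Not at hall
    obtain ⟨c, d, hM⟩ := hall
    have hno : ∀ a b, ¬ P a b := by
      intro a b hP
      have k : ∀ x y u v, P x y → M u v → x * u = u * x := by
        intro x y u v p m
        by_contra hn
        rcases hPM x u hn with h | h
        · exact e3 u x v (hPs _ _ h) m
        · exact e3 x y u p h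
      have k1 := k a b c d hP hM
      have k2 := k a b d c hP (hMs _ _ hM)
      have k3 := k b a c d (hPs _ _ hP) hM
      have n1 : b * (a * c) ≠ a * c * b := by
        intro h
        apply hP.2.2
        rw [mul_assoc a c b, ← k3, ← mul_assoc, ← mul_assoc] at h
        exact (mul_right_cancel h).symm
      have n2 : d * (a * c) ≠ a * c * d := by
        intro h
        apply hM.2.2
        rw [← mul_assoc, ← k2, mul_assoc, mul_assoc] at h
        exact (mul_left_cancel h).symm
      have p1 : P b (a * c) := (hPM _ _ n1).resolve_right fun h => e3 b a _ (hPs _ _ hP) h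
      have p2 : M d (a * c) := (hPM _ _ n2).resolve_left fun h => e3 d _ c h (hMs _ _ hM)
      exact e3 _ _ _ (hPs _ _ p1) (hMs _ _ p2)
    refine ⟨MulEquiv.mk' (π.trans (Equiv.inv H)) fun a b => ?_⟩
    have : π (a * b) = π b * π a := by
      by_cases h : a * b = b * a
      · rw [h]; exact hc2 b a h.symm
      · exact ((hPM a b h).resolve_left (hno a b)).1
    simp [this]

theorem single_pair {k H : Type} [Field k] [CharP k 2] {p q r s : H}
    (h : (MonoidAlgebra.single p (1 : k)) + MonoidAlgebra.single q 1 =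
      MonoidAlgebra.single r 1 + MonoidAlgebra.single s 1) :
    (p = r ∧ q = s) ∨ (p = s ∧ q = r) ∨ (p = q ∧ r = s) := by
  classical
  have h2 : (1 : k) + 1 = 0 := by
    have := CharP.cast_eq_zero k 2
    norm_num at this ⊢
    exact this
  have hc : ∀ x, (if p = x then (1 : k) else 0) + (if q = x then 1 else 0) =
      (if r = x then 1 else 0) + (if s = x then 1 else 0) := by
    intro x
    have := congrArg (fun z : MonoidAlgebra k H => z.coeff x) h
    simpa [Finsupp.single_apply] using this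
  by_cases hpq : p = q
  · subst hpq
    refine Or.inr (Or.inr ⟨rfl, ?_⟩)
    by_contra hrs
    have := hc r
    have hsr : ¬ s = r := fun h => hrs h.symm
    by_cases hpr : p = r <;> simp [hpr, hsr, h2] at this
  · have hqp : ¬ q = p := fun h => hpq h.symm
    have a1 := hc p
    have a2 := hc q
    by_cases b1 : r = p
    · subst b1
      by_cases b2 : s = q
      · exact Or.inl ⟨rfl, b2.symm⟩
      · simp [hpq, b2] at a2
    · by_cases b2 : s = p
      · subst b2
        by_cases b3 : r = q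
        · exact Or.inr (Or.inl ⟨rfl, b3.symm⟩)
        · simp [hpq, b3] at a2
      · simp [hqp, b1, b2] at a1

/-- a norm preserving bijection of odd order groups in characteristic two -/
theorem iso_of_norm {k G H : Type} [Field k] [Infinite k] [CharP k 2] [Group G] [Group H] [Fintype G]
    (hodd : Odd (Fintype.card G)) (D : NT k (MonoidAlgebra k G)) (D' : NT k (MonoidAlgebra k H))
    (π : G ≃ H) (h1 : π 1 = 1)
    (hT : ∀ a, D'.N (MonoidAlgebra.mapDomainLinearEquiv k k π a) = D.N a) : Nonempty (G ≃* H) := by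
  set T : MonoidAlgebra k G →ₗ[k] MonoidAlgebra k H := (MonoidAlgebra.mapDomainLinearEquiv k k π).toLinearMap
  have hs : Function.Surjective T := (MonoidAlgebra.mapDomainLinearEquiv k k π).surjective
  have hT' : ∀ a, D'.N (T a) = D.N a := hT
  have hTs : ∀ g, T (MonoidAlgebra.single g 1) = MonoidAlgebra.single (π g) 1 := fun g =>
    MonoidAlgebra.mapDomainLinearEquiv_single π 1 g
  let U : G →* (MonoidAlgebra k G)ˣ := (MonoidAlgebra.of k G).toHomUnits
  let U' : H →* (MonoidAlgebra k H)ˣ := (MonoidAlgebra.of k H).toHomUnits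
  have hU : ∀ g, (U g : MonoidAlgebra k G) = MonoidAlgebra.single g 1 := fun g => rfl
  have hU' : ∀ g, (U' g : MonoidAlgebra k H) = MonoidAlgebra.single g 1 := fun g => rfl
  have hTU : ∀ g, T (U g) = U' (π g) := fun g => hTs g
  have hsi : ∀ p q : H, (MonoidAlgebra.single p (1 : k)) = MonoidAlgebra.single q 1 → p = q :=
    fun p q h => MonoidAlgebra.single_left_injective one_ne_zero h
  have hinv : ∀ g, π g⁻¹ = (π g)⁻¹ := by
    intro g
    have := hua D D' T hT' hs (U 1) (U g) (U' (π 1)) (U' (π g)) (hTU 1) (hTU g)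
    rw [h1, map_one, map_one, ← map_inv, ← map_inv, Units.val_one, Units.val_one, one_mul, mul_one,
      one_mul, mul_one, hTU, hU', hU'] at this
    exact hsi _ _ this
  have hJ : ∀ (a : (MonoidAlgebra k G)ˣ) (y : G), T ((a : MonoidAlgebra k G) * MonoidAlgebra.single y 1 * (a : MonoidAlgebra k G)) =
      T a * MonoidAlgebra.single (π y) 1 * T a := by
    intro a y
    obtain ⟨a', ha'⟩ := D'.unit (T a) (by rw [hT']; exact D.ne_zero a)
    have := hua D D' T hT' hs a (U y⁻¹) a' (U' (π y⁻¹)) ha'.symm (hTU _)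
    rw [← map_inv, ← map_inv, hinv, inv_inv, inv_inv, hU, hU', ha'] at this
    exact this
  have h3' : ∀ g h, T (MonoidAlgebra.single g 1 * MonoidAlgebra.single h 1 * MonoidAlgebra.single g 1) =
      MonoidAlgebra.single (π g) 1 * MonoidAlgebra.single (π h) 1 * MonoidAlgebra.single (π g) 1 := by
    intro g h
    have := hJ (U g) h
    rwa [hTU, hU, hU'] at this
  refine half_iso π h1 ?_ ?_ ?_
  · intro g h
    have := h3' g h
    simp only [MonoidAlgebra.single_mul_single, mul_one] at this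
    rw [hTs] at this
    exact hsi _ _ this
  · intro x y z
    obtain ⟨s, hs0, a, ha⟩ := D.exists_scalar (U x) (MonoidAlgebra.single z 1)
    have e := hJ a y
    rw [ha, hU, map_add, map_smul, hTs, hTs] at e
    simp only [add_mul, mul_add, smul_mul_assoc, mul_smul_comm, map_add, map_smul, h3'] at e
    have e2 : s • (T (MonoidAlgebra.single x 1 * MonoidAlgebra.single y 1 * MonoidAlgebra.single z 1) +
        T (MonoidAlgebra.single z 1 * MonoidAlgebra.single y 1 * MonoidAlgebra.single x 1)) =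
        s • (MonoidAlgebra.single (π x) 1 * MonoidAlgebra.single (π y) 1 * MonoidAlgebra.single (π z) 1 +
          MonoidAlgebra.single (π z) 1 * MonoidAlgebra.single (π y) 1 * MonoidAlgebra.single (π x) 1) := by
      rw [smul_add, smul_add]
      rw [smul_add, smul_add] at e
      linear_combination (norm := abel1) e
    have e3 := smul_right_injective _ hs0 e2
    simp only [MonoidAlgebra.single_mul_single, mul_one] at e3
    rw [hTs, hTs] at e3
    rcases single_pair e3 with h | h | ⟨h, h'⟩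
    · exact Or.inl h
    · exact Or.inr (Or.inl h)
    · exact Or.inr (Or.inr ⟨π.injective h, h'⟩)
  · intro g h hgh
    obtain ⟨m, hm⟩ := hodd
    refine ⟨g ^ (m + 1), ?_, ((show Commute g h from hgh).pow_left _).eq⟩
    rw [← pow_add, show m + 1 + (m + 1) = Fintype.card G + 1 by omega, pow_succ, pow_card_eq_one, one_mul]

end Pool.Agent.H231Z.GenMin
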