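import Mathlib

set_option autoImplicit false

namespace Pool.Agent.H231Z.SQ

/-- The tree `σℚ`: strictly increasing maps `t : α → ℚ`, `α < ω₁`, with range bounded above in `ℚ`.
`len` is the domain `α`; it is the height of `t` in the tree. -/
structure SigmaQ where
  len : Ordinal.{0}
  len_lt : len < Ordinal.omega 1
  val : Set.Iio len → ℚ
  mono : StrictMono val
  bdd : BddAbove (Set.range val)

/-- The tree order: inclusion of functions (`t` extends `s`). -/
instance instPartialOrderSigmaQ : PartialOrder SigmaQ where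
  le s t := s.len ≤ t.len ∧ ∀ (β : Ordinal.{0}) (hs : β < s.len) (ht : β < t.len),
    s.val ⟨β, hs⟩ = t.val ⟨β, ht⟩
  le_refl s := ⟨le_rfl, fun _ _ _ => rfl⟩
  le_trans s t u h1 h2 := ⟨h1.1.trans h2.1, fun β hs hu =>
    (h1.2 β hs (hs.trans_le h1.1)).trans (h2.2 β (hs.trans_le h1.1) hu)⟩
  le_antisymm s t h1 h2 := by
    obtain ⟨a, ha, f, hf, hf'⟩ := s
    obtain ⟨b, hb, g, hg, hg'⟩ := t
    have hab : a = b := le_antisymm h1.1 h2.1
    subst hab
    have : f = g := funext fun β => h1.2 β.1 β.2 β.2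
    subst this
    rfl

/-- A set is special if it is a union of countably many antichains. -/
def Special (X : Set SigmaQ) : Prop :=
  ∃ A : ℕ → Set SigmaQ, (∀ n, IsAntichain (· ≤ ·) (A n)) ∧ X = ⋃ n, A n

/-- `X` is nonstationary: some `f : X → σℚ` is regressive at every non-minimal `x ∈ X` and has special fibres. -/
def NonStat (X : Set SigmaQ) : Prop :=
  ∃ f : X → SigmaQ, (∀ x : X, ¬ IsMin (x : SigmaQ) → f x < (x : SigmaQ)) ∧
    ∀ t : SigmaQ, Special (Subtype.val '' (f ⁻¹' {t}))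

/-- The immediate successors of `t`. -/
def Succ (t : SigmaQ) : Set SigmaQ := {s | t < s ∧ s.len = t.len + 1}

/-- `Q` is a successor-partition. -/
def IsSuccPartition (Q : SigmaQ → Fin 2 → Set SigmaQ) : Prop :=
  ∀ t, Disjoint (Q t 0) (Q t 1) ∧ Q t 0 ∪ Q t 1 = Succ t

/-- `S` is the subtree `σℚ(Q, f)`: a downward closed set containing the root with (a) and (b). -/
def IsTreeOf (Q : SigmaQ → Fin 2 → Set SigmaQ) (f : SigmaQ → Fin 2) (S : Set SigmaQ) : Prop :=
  IsLowerSet S ∧ (∀ t : SigmaQ, t.len = 0 → t ∈ S) ∧ (∀ t ∈ S, S ∩ Succ t = Q t (f t)) ∧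
    ∀ t : SigmaQ, Order.IsSuccLimit t.len → (∀ s, s < t → s ∈ S) → t ∈ S

end Pool.Agent.H231Z.SQ
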