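import Pool.Agent.H231Z.SQDefs

set_option autoImplicit false

namespace Pool.Agent.H231Z.SQ

open Set

noncomputable def SigmaQ.get (t : SigmaQ) (β : Ordinal.{0}) : ℚ :=
  open Classical in if h : β < t.len then t.val ⟨β, h⟩ else 0

theorem get_eq (t : SigmaQ) {β : Ordinal.{0}} (h : β < t.len) : t.get β = t.val ⟨β, h⟩ := by
  simp [SigmaQ.get, h]

theorem le_iff {s t : SigmaQ} : s ≤ t ↔ s.len ≤ t.len ∧ ∀ β < s.len, s.get β = t.get β := by
  constructor
  · rintro ⟨h1, h2⟩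
    refine ⟨h1, fun β hβ => ?_⟩
    rw [get_eq s hβ, get_eq t (hβ.trans_le h1)]
    exact h2 _ _ _
  · rintro ⟨h1, h2⟩
    refine ⟨h1, fun β hs ht => ?_⟩
    rw [← get_eq s hs, ← get_eq t ht]
    exact h2 β hs

theorem get_lt (t : SigmaQ) {β γ : Ordinal.{0}} (h : β < γ) (hγ : γ < t.len) : t.get β < t.get γ := by
  rw [get_eq t hγ, get_eq t (h.trans hγ)]
  exact t.mono h

theorem len_lt_of_lt {s t : SigmaQ} (h : s < t) : s.len < t.len := by
  have h1 := le_iff.1 h.le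
  refine lt_of_le_of_ne h1.1 fun he => h.not_ge (le_iff.2 ⟨he.ge, fun β hβ => ?_⟩)
  exact (h1.2 β (he ▸ hβ)).symm

theorem lt_of_le_of_len_lt {s t : SigmaQ} (h : s ≤ t) (hl : s.len < t.len) : s < t :=
  lt_of_le_of_ne h (by rintro rfl; exact lt_irrefl _ hl)

theorem le_of_le_of_len {s t w : SigmaQ} (hs : s ≤ w) (ht : t ≤ w) (h : s.len ≤ t.len) : s ≤ t := by
  refine le_iff.2 ⟨h, fun β hβ => ?_⟩
  rw [(le_iff.1 hs).2 β hβ, (le_iff.1 ht).2 β (hβ.trans_le h)]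

/-- build an element from a total function -/
def mk' (α : Ordinal.{0}) (hα : α < Ordinal.omega 1) (g : Ordinal.{0} → ℚ)
    (hg : ∀ β γ, β < γ → γ < α → g β < g γ) (b : ℚ) (hb : ∀ β < α, g β ≤ b) : SigmaQ where
  len := α
  len_lt := hα
  val := fun β => g β
  mono := fun β γ h => hg β γ h γ.2
  bdd := ⟨b, by rintro _ ⟨β, rfl⟩; exact hb β β.2⟩

theorem exists_mk (α : Ordinal.{0}) (hα : α < Ordinal.omega 1) (g : Ordinal.{0} → ℚ)
    (hg : ∀ β γ, β < γ → γ < α → g β < g γ) (b : ℚ) (hb : ∀ β < α, g β ≤ b) :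
    ∃ t : SigmaQ, t.len = α ∧ ∀ β < α, t.get β = g β :=
  ⟨mk' α hα g hg b hb, rfl, fun β hβ => get_eq (mk' α hα g hg b hb) hβ⟩

theorem exists_bound (t : SigmaQ) : ∃ b, ∀ β < t.len, t.get β ≤ b := by
  obtain ⟨b, hb⟩ := t.bdd
  refine ⟨b, fun β hβ => ?_⟩
  rw [get_eq t hβ]
  exact hb ⟨_, rfl⟩

theorem exists_restrict (t : SigmaQ) {α : Ordinal.{0}} (h : α ≤ t.len) : ∃ s, s ≤ t ∧ s.len = α := by
  obtain ⟨b, hb⟩ := exists_bound t
  obtain ⟨s, h1, h2⟩ := exists_mk α (h.trans_lt t.len_lt) t.get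
    (fun β γ h1 h2 => get_lt t h1 (h2.trans_le h)) b (fun β hβ => hb β (hβ.trans_le h))
  exact ⟨s, le_iff.2 ⟨h1 ▸ h, fun β hβ => h2 β (h1 ▸ hβ)⟩, h1⟩

theorem exists_snoc (t : SigmaQ) (d : ℚ) (hd : ∀ β < t.len, t.get β < d) :
    ∃ s, t < s ∧ s.len = t.len + 1 ∧ s.get t.len = d := by
  classical
  have hlt : t.len + 1 < Ordinal.omega 1 := by
    have : Order.IsSuccLimit (Ordinal.omega.{0} 1) := Cardinal.isSuccLimit_omega 1
    exact this.add_one_lt t.len_lt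
  obtain ⟨s, h1, h2⟩ := exists_mk (t.len + 1) hlt (fun β => if β < t.len then t.get β else d)
    (by
      intro β γ h1 h2
      have h3 : γ ≤ t.len := Order.lt_add_one_iff.1 h2
      rcases h3.lt_or_eq with h4 | h4
      · simp only [if_pos h4, if_pos (h1.trans h4)]
        exact get_lt t h1 h4
      · subst h4
        simp only [if_pos h1, lt_irrefl, if_false]
        exact hd β h1) d
    (by
      intro β _
      by_cases h : β < t.len
      · simp only [if_pos h]; exact (hd β h).le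
      · simp only [if_neg h]; exact le_rfl)
  have h3 : t.len < t.len + 1 := Order.lt_add_one_iff.2 le_rfl
  refine ⟨s, lt_of_le_of_len_lt (le_iff.2 ⟨h1 ▸ h3.le, fun β hβ => ?_⟩) (h1 ▸ h3), h1, ?_⟩
  · rw [h2 β (hβ.trans h3)]; simp [hβ]
  · rw [h2 _ h3]; simp

theorem exists_union (t : ℕ → SigmaQ) (ht : Monotone t) (b : ℚ)
    (hb : ∀ n, ∀ β < (t n).len, (t n).get β ≤ b) :
    ∃ w : SigmaQ, (∀ n, t n ≤ w) ∧ ∀ β < w.len, ∃ n, β < (t n).len := by
  classical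
  have hsup : (⨆ n, (t n).len) < Ordinal.omega 1 := by
    apply Ordinal.iSup_lt_of_lt_cof
    · rw [Cardinal.cof_omega_one, Cardinal.mk_nat]; exact Cardinal.aleph0_lt_aleph_one
    · intro n; exact (t n).len_lt
  have hex : ∀ β < ⨆ n, (t n).len, ∃ n, β < (t n).len := fun β hβ =>
    (Ordinal.lt_iSup_iff).1 hβ
  have hcoh : ∀ n m β, β < (t n).len → β < (t m).len → (t n).get β = (t m).get β := by
    intro n m β h1 h2
    rcases le_total n m with h | h
    · exact (le_iff.1 (ht h)).2 β h1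
    · exact ((le_iff.1 (ht h)).2 β h2).symm
  let g : Ordinal.{0} → ℚ := fun β => if h : ∃ n, β < (t n).len then (t h.choose).get β else 0
  have hg : ∀ n β, β < (t n).len → g β = (t n).get β := by
    intro n β h
    have h' : ∃ n, β < (t n).len := ⟨n, h⟩
    simp only [g, dif_pos h']
    exact hcoh _ _ β h'.choose_spec h
  obtain ⟨w, h1, h2⟩ := exists_mk _ hsup g
    (by
      intro β γ h1 h2
      obtain ⟨n, hn⟩ := hex γ h2
      rw [hg n γ hn, hg n β (h1.trans hn)]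
      exact get_lt _ h1 hn) b
    (by
      intro β hβ
      obtain ⟨n, hn⟩ := hex β hβ
      rw [hg n β hn]
      exact hb n β hn)
  refine ⟨w, fun n => ?_, fun β hβ => hex β (h1 ▸ hβ)⟩
  have h3 : (t n).len ≤ ⨆ n, (t n).len := Ordinal.le_iSup (fun n => (t n).len) n
  refine le_iff.2 ⟨h1 ▸ h3, fun β hβ => ?_⟩
  rw [h2 β (hβ.trans_le h3), hg n β hβ]

/-- a two-colouring of the rationals with both classes dense -/
theorem exists_col : ∃ c : ℚ → Fin 2, ∀ (i : Fin 2) (p q : ℚ), p < q → ∃ d, p < d ∧ d < q ∧ c d = i := by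
  refine ⟨fun d => if Even d.den then 0 else 1, fun i p q hpq => ?_⟩
  obtain ⟨k, hk⟩ := exists_nat_one_div_lt (sub_pos.2 hpq)
  have hi : i = 0 ∨ i = 1 := by omega
  rcases hi with rfl | rfl
  · set n : ℕ := k + 1 with hn
    have hn0 : (0 : ℚ) < n := by positivity
    have hk' : 1 / (n : ℚ) < q - p := by rw [hn]; push_cast; exact hk
    set m : ℤ := ⌊p * n - 1 / 2⌋ + 1 with hm
    have h1 : p * n - 1 / 2 < m := by rw [hm]; push_cast; exact Int.lt_floor_add_one _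
    have h2 : (m : ℚ) ≤ p * n - 1 / 2 + 1 := by
      rw [hm]; push_cast; linarith [Int.floor_le (p * n - 1 / 2)]
    refine ⟨(2 * m + 1) / (2 * n), ?_, ?_, ?_⟩
    · rw [lt_div_iff₀ (by positivity)]; linarith
    · rw [div_lt_iff₀ (by positivity)]
      rw [div_lt_iff₀ hn0] at hk'
      linarith
    · set d : ℚ := (2 * m + 1) / (2 * n) with hd
      have h3 : d * (2 * n) = 2 * m + 1 := by rw [hd]; field_simp
      have h4 : d * d.den = d.num := Rat.mul_den_eq_num d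
      have h5 : (d.num : ℚ) * (2 * n) = (2 * m + 1) * d.den := by
        rw [← h4, ← h3]; ring
      have h6 : d.num * (2 * n) = (2 * m + 1) * d.den := by exact_mod_cast h5
      have h7 : Even ((2 * m + 1) * (d.den : ℤ)) := by
        rw [← h6]; exact ⟨d.num * n, by ring⟩
      rcases Int.even_mul.1 h7 with h8 | h8
      · exact absurd h8 (Int.not_even_iff_odd.2 ⟨m, rfl⟩)
      · have : Even d.den := by exact_mod_cast h8
        simp [this]
  · set n : ℕ := 2 * k + 1 with hn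
    have hn0 : (0 : ℚ) < n := by positivity
    have hk' : 1 / (n : ℚ) < q - p := by
      refine lt_of_le_of_lt ?_ hk
      apply one_div_le_one_div_of_le (by positivity)
      rw [hn]; push_cast
      have : (0 : ℚ) ≤ k := by positivity
      linarith
    set m : ℤ := ⌊p * n⌋ + 1 with hm
    have h1 : p * n < m := by rw [hm]; push_cast; exact Int.lt_floor_add_one _
    have h2 : (m : ℚ) ≤ p * n + 1 := by
      rw [hm]; push_cast; linarith [Int.floor_le (p * n)]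
    refine ⟨m / n, ?_, ?_, ?_⟩
    · rw [lt_div_iff₀ hn0]; linarith
    · rw [div_lt_iff₀ hn0]
      rw [div_lt_iff₀ hn0] at hk'
      linarith
    · set d : ℚ := m / n with hd
      have h3 : d * n = m := by rw [hd]; field_simp
      have h4 : d * d.den = d.num := Rat.mul_den_eq_num d
      have h5 : (d.num : ℚ) * n = m * d.den := by
        rw [← h4, ← h3]; ring
      have h6 : d.num * n = m * d.den := by exact_mod_cast h5
      have : ¬ Even d.den := by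
        intro he
        have h7 : Even (d.num * (n : ℤ)) := by
          rw [h6]; exact Even.mul_left (by exact_mod_cast he) _
        rcases Int.even_mul.1 h7 with h8 | h8
        · have h9 : 2 ∣ d.num.natAbs := by
            have := h8.two_dvd
            exact Int.natAbs_dvd_natAbs.2 this
          have h10 := Nat.dvd_gcd h9 he.two_dvd
          rw [d.reduced] at h10
          omega
        · have : Even n := by exact_mod_cast h8
          rw [hn] at this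
          exact absurd this (Nat.not_even_iff_odd.2 ⟨k, rfl⟩)
      simp [this]

section

variable (c : ℚ → Fin 2)

/-- the partition -/
def QQ (t : SigmaQ) (i : Fin 2) : Set SigmaQ := {s | s ∈ Succ t ∧ c (s.get t.len) = i}

/-- the subtree -/
def TT (f : SigmaQ → Fin 2) : Set SigmaQ := {t | ∀ s < t, c (t.get s.len) = f s}

theorem QQ_part : IsSuccPartition (QQ c) := by
  intro t
  constructor
  · rw [Set.disjoint_left]
    rintro s ⟨-, h1⟩ ⟨-, h2⟩
    rw [h1] at h2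
    exact absurd h2 (by decide)
  · ext s
    constructor
    · rintro (h | h) <;> exact h.1
    · intro h
      have : c (s.get t.len) = 0 ∨ c (s.get t.len) = 1 := by omega
      rcases this with h1 | h1
      · exact Or.inl ⟨h, h1⟩
      · exact Or.inr ⟨h, h1⟩

theorem TT_snoc {f : SigmaQ → Fin 2} {t s : SigmaQ} (ht : t ∈ TT c f) (hs : s ∈ Succ t)
    (h : c (s.get t.len) = f t) : s ∈ TT c f := by
  intro r hr
  have h1 : r.len ≤ t.len := by
    have := len_lt_of_lt hr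
    rw [hs.2] at this
    exact Order.lt_add_one_iff.1 this
  have h2 : r ≤ t := le_of_le_of_len hr.le hs.1.le h1
  rcases h2.lt_or_eq with h3 | h3
  · rw [← (le_iff.1 hs.1.le).2 _ (len_lt_of_lt h3)]
    exact ht r h3
  · rw [h3]; exact h

theorem TT_tree (f : SigmaQ → Fin 2) : IsTreeOf (QQ c) f (TT c f) := by
  refine ⟨?_, ?_, ?_, ?_⟩
  · intro t s hst ht r hr
    rw [(le_iff.1 hst).2 _ (len_lt_of_lt hr)]
    exact ht r (hr.trans_le hst)
  · intro t ht s hs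
    have := len_lt_of_lt hs
    rw [ht] at this
    exact absurd this (not_lt.2 (zero_le))
  · intro t ht
    ext s
    constructor
    · rintro ⟨h1, h2⟩
      exact ⟨h2, h1 t h2.1⟩
    · rintro ⟨h1, h2⟩
      exact ⟨TT_snoc c ht h1 h2, h1⟩
  · intro t hl h r hr
    have h1 : r.len + 1 < t.len := hl.add_one_lt (len_lt_of_lt hr)
    obtain ⟨s, hs1, hs2⟩ := exists_restrict t h1.le
    have h2 : r.len < s.len := by rw [hs2]; exact Order.lt_add_one_iff.2 le_rfl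
    have h3 : r < s := lt_of_le_of_len_lt (le_of_le_of_len hr.le hs1 h2.le) h2
    rw [← (le_iff.1 hs1).2 _ h2]
    exact h s (lt_of_le_of_len_lt hs1 (hs2 ▸ h1)) r h3

end

theorem tree_sub {Q : SigmaQ → Fin 2 → Set SigmaQ} {f : SigmaQ → Fin 2} {S S' : Set SigmaQ}
    (h : IsTreeOf Q f S) (h' : IsTreeOf Q f S') : S ⊆ S' := by
  have : ∀ α : Ordinal.{0}, ∀ t : SigmaQ, t.len = α → t ∈ S → t ∈ S' := by
    intro α
    induction α using WellFoundedLT.induction with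
    | ind α ih =>
      intro t ht hS
      rcases Ordinal.zero_or_succ_or_isSuccLimit α with h0 | ⟨β, hβ⟩ | hl
      · exact h'.2.1 t (ht.trans h0)
      · have hβ' : t.len = β + 1 := by rw [ht, ← hβ]; rfl
        have h1 : β < t.len := by rw [hβ']; exact Order.lt_add_one_iff.2 le_rfl
        obtain ⟨r, hr1, hr2⟩ := exists_restrict t h1.le
        have h2 : r < t := lt_of_le_of_len_lt hr1 (hr2 ▸ h1)
        have h3 : r ∈ S := h.1 hr1 hS
        have h4 : r ∈ S' := ih β (ht ▸ h1) r hr2 h3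
        have h5 : t ∈ S ∩ Succ r := ⟨hS, h2, by rw [hβ', hr2]⟩
        rw [h.2.2.1 r h3, ← h'.2.2.1 r h4] at h5
        exact h5.1
      · refine h'.2.2.2 t (ht ▸ hl) fun s hs => ih s.len (ht ▸ len_lt_of_lt hs) s rfl (h.1 hs.le hS)
  exact fun t ht => this t.len t rfl ht

/-- one step of the construction -/
theorem step {c : ℚ → Fin 2} (hc : ∀ (i : Fin 2) (p q : ℚ), p < q → ∃ d, p < d ∧ d < q ∧ c d = i)
    {f : SigmaQ → Fin 2} (t : SigmaQ) (q : ℚ) (ht : t ∈ TT c f)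
    (hq : ∃ p < q, ∀ β < t.len, t.get β ≤ p) (B : Set SigmaQ) (hB : IsAntichain (· ≤ ·) B) :
    ∃ (t' : SigmaQ) (q' : ℚ), t' ∈ TT c f ∧ (∃ p < q', ∀ β < t'.len, t'.get β ≤ p) ∧ t < t' ∧ q' < q ∧
      ∀ w ∈ TT c f, t' ≤ w → (∀ β < w.len, w.get β ≤ q') → w ∉ B := by
  have ext : ∀ s ∈ TT c f, (∃ p < q, ∀ β < s.len, s.get β ≤ p) →
      ∃ (t' : SigmaQ) (q' : ℚ), t' ∈ TT c f ∧ (∃ p < q', ∀ β < t'.len, t'.get β ≤ p) ∧ s < t' ∧ q' < q := by
    rintro s hs ⟨p, hp, hb⟩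
    obtain ⟨d, hd1, hd2, hd3⟩ := hc (f s) p q hp
    obtain ⟨t', h1, h2, h3⟩ := exists_snoc s d (fun β hβ => (hb β hβ).trans_lt hd1)
    refine ⟨t', (d + q) / 2, TT_snoc c hs ⟨h1, h2⟩ (by rw [h3, hd3]), ⟨d, by linarith, ?_⟩, h1,
      by linarith⟩
    intro β hβ
    rw [h2] at hβ
    rcases (Order.lt_add_one_iff.1 hβ).lt_or_eq with h4 | h4
    · rw [← (le_iff.1 h1.le).2 β h4]
      exact (hb β h4).trans hd1.le
    · rw [h4, h3]
  by_cases h : ∃ s ∈ TT c f, s ∈ B ∧ t ≤ s ∧ ∃ p < q, ∀ β < s.len, s.get β ≤ p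
  · obtain ⟨s, hs1, hs2, hs3, hs4⟩ := h
    obtain ⟨t', q', h1, h2, h3, h4⟩ := ext s hs1 hs4
    refine ⟨t', q', h1, h2, hs3.trans_lt h3, h4, fun w _ hw _ hwB => ?_⟩
    have h5 : s < w := h3.trans_le hw
    exact hB hs2 hwB h5.ne h5.le
  · obtain ⟨t', q', h1, h2, h3, h4⟩ := ext t ht hq
    refine ⟨t', q', h1, h2, h3, h4, fun w hw1 hw2 hw3 hwB => h ⟨w, hw1, hwB, h3.le.trans hw2, q', h4, hw3⟩⟩

theorem exists_root : ∃ t : SigmaQ, t.len = 0 := by
  obtain ⟨t, h, -⟩ := exists_mk 0 (Ordinal.omega_pos 1) (fun _ => 0)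
    (fun β γ _ h => absurd h (not_lt.2 zero_le)) 0 (fun _ _ => le_rfl)
  exact ⟨t, h⟩

/-- The core lemma. -/
theorem core {c : ℚ → Fin 2} (hc : ∀ (i : Fin 2) (p q : ℚ), p < q → ∃ d, p < d ∧ d < q ∧ c d = i)
    (f : SigmaQ → Fin 2) (A : SigmaQ → ℕ → Set SigmaQ) (hA : ∀ s k, IsAntichain (· ≤ ·) (A s k)) :
    ∃ w ∈ TT c f, (∃ r, r < w) ∧ ∀ s < w, ∀ k, w ∉ A s k := by
  classical
  obtain ⟨v, hv⟩ := exists_surjective_nat (ℚ × ℕ)
  let u : ℕ → ℚ × ℕ := fun n => v (Nat.unpair n).1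
  have hu : ∀ (x : ℚ × ℕ) (N : ℕ), ∃ n, N ≤ n ∧ u n = x := by
    intro x N
    obtain ⟨j, rfl⟩ := hv x
    refine ⟨Nat.pair j N, Nat.right_le_pair _ _, ?_⟩
    simp [u]
  let B : SigmaQ → ℕ → Set SigmaQ := fun t n =>
    {w | ∃ s < t, t.get s.len = (u n).1 ∧ w ∈ A s (u n).2}
  have hB : ∀ t n, IsAntichain (· ≤ ·) (B t n) := by
    rintro t n w ⟨s, hs1, hs2, hs3⟩ w' ⟨s', hs1', hs2', hs3'⟩ hne
    have h1 : s.len = s'.len := by
      rcases lt_trichotomy s.len s'.len with h | h | h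
      · have := get_lt t h (len_lt_of_lt hs1')
        rw [hs2, hs2'] at this
        exact absurd this (lt_irrefl _)
      · exact h
      · have := get_lt t h (len_lt_of_lt hs1)
        rw [hs2, hs2'] at this
        exact absurd this (lt_irrefl _)
    have h2 : s = s' := le_antisymm (le_of_le_of_len hs1.le hs1'.le h1.le)
      (le_of_le_of_len hs1'.le hs1.le h1.ge)
    subst h2
    exact hA s _ hs3 hs3' hne
  let G : Type 1 := {x : SigmaQ × ℚ // x.1 ∈ TT c f ∧ ∃ p < x.2, ∀ β < x.1.len, x.1.get β ≤ p}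
  have hstep : ∀ (x : G) (n : ℕ), ∃ y : G, x.1.1 < y.1.1 ∧ y.1.2 < x.1.2 ∧
      ∀ w ∈ TT c f, y.1.1 ≤ w → (∀ β < w.len, w.get β ≤ y.1.2) → w ∉ B x.1.1 n := by
    intro x n
    obtain ⟨t', q', h1, h2, h3, h4, h5⟩ := step hc x.1.1 x.1.2 x.2.1 x.2.2 _ (hB x.1.1 n)
    exact ⟨⟨(t', q'), h1, h2⟩, h3, h4, h5⟩
  choose nx hnx1 hnx2 hnx3 using hstep
  obtain ⟨r, hr⟩ := exists_root
  let x0 : G := ⟨(r, 1), (TT_tree c f).2.1 r hr, 0, zero_lt_one, fun β hβ => by
    have hβ' : β < r.len := hβ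
    rw [hr] at hβ'
    exact absurd hβ' (not_lt.2 zero_le)⟩
  let x : ℕ → G := fun n => Nat.rec x0 (fun n y => nx y n) n
  have hx : ∀ n, x (n + 1) = nx (x n) n := fun n => rfl
  have hmono : StrictMono (fun n => (x n).1.1) := strictMono_nat_of_lt_succ fun n => hnx1 (x n) n
  have hanti : StrictAnti (fun n => (x n).1.2) := strictAnti_nat_of_succ_lt fun n => hnx2 (x n) n
  have hbd : ∀ n m, n ≤ m → ∀ β < (x m).1.1.len, (x m).1.1.get β ≤ (x n).1.2 := by
    intro n m h β hβ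
    obtain ⟨p, hp1, hp2⟩ := (x m).2.2
    exact (hp2 β hβ).trans (hp1.le.trans (hanti.antitone h))
  obtain ⟨w, hw1, hw2⟩ := exists_union (fun n => (x n).1.1) hmono.monotone (x 0).1.2
    (fun n => hbd 0 n (Nat.zero_le n))
  have hlt : ∀ s < w, ∃ N, ∀ n, N ≤ n → s < (x n).1.1 := by
    intro s hs
    obtain ⟨N, hN⟩ := hw2 _ (len_lt_of_lt hs)
    have : s < (x N).1.1 := lt_of_le_of_len_lt (le_of_le_of_len hs.le (hw1 N) hN.le) hN
    exact ⟨N, fun n hn => this.trans_le (hmono.monotone hn)⟩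
  have hwT : w ∈ TT c f := by
    intro s hs
    obtain ⟨N, hN⟩ := hlt s hs
    have h1 := hN N le_rfl
    rw [← (le_iff.1 (hw1 N)).2 _ (len_lt_of_lt h1)]
    exact (x N).2.1 s h1
  have hwb : ∀ n, ∀ β < w.len, w.get β ≤ (x n).1.2 := by
    intro n β hβ
    obtain ⟨N, hN⟩ := hw2 β hβ
    have h1 : β < (x (max n N)).1.1.len :=
      hN.trans_le (le_iff.1 (hmono.monotone (le_max_right n N))).1
    rw [← (le_iff.1 (hw1 (max n N))).2 β h1]
    exact hbd n _ (le_max_left _ _) β h1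
  refine ⟨w, hwT, ⟨(x 0).1.1, (hmono zero_lt_one).trans_le (hw1 1)⟩, fun s hs k hk => ?_⟩
  obtain ⟨N, hN⟩ := hlt s hs
  obtain ⟨n, hn1, hn2⟩ := hu (w.get s.len, k) N
  have h1 := hN n hn1
  refine hnx3 (x n) n w hwT (hw1 (n + 1)) (hwb (n + 1)) ⟨s, h1, ?_, ?_⟩
  · rw [hn2]; exact (le_iff.1 (hw1 n)).2 _ (len_lt_of_lt h1)
  · rw [hn2]; exact hk

theorem nice : ∃ Q : SigmaQ → Fin 2 → Set SigmaQ, IsSuccPartition Q ∧ ∀ f : SigmaQ → Fin 2,
    (∃! S, IsTreeOf Q f S) ∧ ∀ S, IsTreeOf Q f S → ¬ Special S := by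
  obtain ⟨c, hc⟩ := exists_col
  refine ⟨QQ c, QQ_part c, fun f => ⟨⟨TT c f, TT_tree c f, fun S hS =>
    Subset.antisymm (tree_sub hS (TT_tree c f)) (tree_sub (TT_tree c f) hS)⟩, ?_⟩⟩
  rintro S hS ⟨A, hA, hSA⟩
  obtain ⟨w, hw1, ⟨r, hr⟩, hw2⟩ := core hc f (fun _ k => A k) (fun _ k => hA k)
  have : w ∈ S := tree_sub (TT_tree c f) hS hw1
  rw [hSA] at this
  obtain ⟨k, hk⟩ := mem_iUnion.1 this
  exact hw2 r hr k hk

theorem diamond : ∃ D : SigmaQ → Set SigmaQ, (∀ t, D t ⊆ Set.Iio t) ∧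
    ∀ X : Set SigmaQ, ¬ NonStat {t | X ∩ Set.Iio t = D t} := by
  classical
  obtain ⟨c, hc⟩ := exists_col
  refine ⟨fun t => {s | s < t ∧ c (t.get s.len) = 1}, fun t s hs => hs.1, ?_⟩
  rintro X ⟨g, hg1, hg2⟩
  choose A hA1 hA2 using hg2
  obtain ⟨w, hw1, ⟨r, hr⟩, hw2⟩ := core hc (fun s => if s ∈ X then 1 else 0) A hA1
  have hw : w ∈ {t | X ∩ Set.Iio t = {s | s < t ∧ c (t.get s.len) = 1}} := by
    ext s
    constructor
    · rintro ⟨h1, h2⟩
      refine ⟨h2, ?_⟩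
      rw [hw1 s h2]; simp [h1]
    · rintro ⟨h1, h2⟩
      refine ⟨?_, h1⟩
      rw [hw1 s h1] at h2
      by_contra h3
      simp [h3] at h2
  have h1 := hg1 ⟨w, hw⟩ (not_isMin_of_lt hr)
  have h2 : w ∈ Subtype.val '' (g ⁻¹' {g ⟨w, hw⟩}) := ⟨⟨w, hw⟩, rfl, rfl⟩
  rw [hA2] at h2
  obtain ⟨k, hk⟩ := mem_iUnion.1 h2
  exact hw2 _ h1 k hk

end Pool.Agent.H231Z.SQ
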